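import Pool.Agent.H820.T6.Stm

set_option autoImplicit false

/-!
# Project T6 (helper820), part ALG: algebra of the matrices `X x`
-/

namespace Pool.Agent.H722.T6

open Matrix Complex ComplexConjugate
open Pool.Agent.H820.T6

theorem nn_expand (s : C4) : nn s = s 0 * conj (s 0) + s 1 * conj (s 1) + s 2 * conj (s 2) +
    s 3 * conj (s 3) := by
  unfold nn
  rw [Fin.sum_univ_four]

theorem nn_ne {s : C4} (hs : s ≠ 0) : nn s ≠ 0 := by
  intro h
  apply hs
  have h1 : ((∑ k, Complex.normSq (s k) : ℝ) : ℂ) = 0 := by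
    rw [← h]
    unfold nn
    push_cast
    exact Finset.sum_congr rfl fun k _ => (Complex.mul_conj (s k)).symm
  have h2 : ∑ k, Complex.normSq (s k) = 0 := by exact_mod_cast h1
  rw [Finset.sum_eq_zero_iff_of_nonneg (fun k _ => Complex.normSq_nonneg _)] at h2
  funext k
  exact Complex.normSq_eq_zero.1 (h2 k (Finset.mem_univ k))

theorem X_mulVec (x : Z3) (s : C4) : X x *ᵥ s =
    ![x 0 * s 1 + x 1 * s 2 + x 2 * s 3,
      -x 0 * s 0 + conj (x 2) * s 2 - conj (x 1) * s 3,
      -x 1 * s 0 - conj (x 2) * s 1 + conj (x 0) * s 3,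
      -x 2 * s 0 + conj (x 1) * s 1 - conj (x 0) * s 2] := by
  funext i
  fin_cases i <;> simp [X, Matrix.mulVec, dotProduct, Fin.sum_univ_four] <;> ring

theorem t_alg : S_alg := by
  refine ⟨?_, ?_, ?_, ?_, fun s hs => nn_ne hs, ?_, ?_⟩
  · intro x y
    ext i j
    fin_cases i <;> fin_cases j <;> simp [X] <;> ring
  · intro t x
    ext i j
    fin_cases i <;> fin_cases j <;> simp [X]
  · intro x
    ext i j
    fin_cases i <;> fin_cases j <;> simp [X]
  · intro x s
    rw [X_mulVec]
    simp [dotProduct, Fin.sum_univ_four]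
    ring
  · intro s hs x
    have h := nn_ne hs
    rw [nn_expand] at h
    rw [X_mulVec]
    funext k
    fin_cases k
    · simp [Y, nn_expand]
      field_simp
      ring
    · simp [Y, nn_expand]
      field_simp
      ring
    · simp [Y, nn_expand]
      field_simp
      ring
  · intro s hs y hy
    have h := nn_ne hs
    have hy1 : s 0 * y 0 + s 1 * y 1 + s 2 * y 2 + s 3 * y 3 = 0 := by
      rw [dotProduct, Fin.sum_univ_four] at hy
      exact hy
    have hN : conj (nn s) = nn s := by
      rw [nn_expand]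
      simp only [map_add, map_mul, conj_conj]
      ring
    have a0 : Y y s 0 =
        (y 0 * conj (s 1) - y 1 * conj (s 0) + conj (y 2) * s 3 - conj (y 3) * s 2) / nn s := rfl
    have a1 : Y y s 1 =
        (y 0 * conj (s 2) - y 2 * conj (s 0) - conj (y 1) * s 3 + conj (y 3) * s 1) / nn s := rfl
    have a2 : Y y s 2 =
        (y 0 * conj (s 3) - y 3 * conj (s 0) + conj (y 1) * s 2 - conj (y 2) * s 1) / nn s := rfl
    have b0 : conj (Y y s 0) =
        (conj (y 0) * s 1 - conj (y 1) * s 0 + y 2 * conj (s 3) - y 3 * conj (s 2)) / nn s := by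
      rw [a0, map_div₀, hN]
      simp only [map_add, map_sub, map_mul, conj_conj]
    have b1 : conj (Y y s 1) =
        (conj (y 0) * s 2 - conj (y 2) * s 0 - y 1 * conj (s 3) + y 3 * conj (s 1)) / nn s := by
      rw [a1, map_div₀, hN]
      simp only [map_add, map_sub, map_mul, conj_conj]
    have b2 : conj (Y y s 2) =
        (conj (y 0) * s 3 - conj (y 3) * s 0 + y 1 * conj (s 2) - y 2 * conj (s 1)) / nn s := by
      rw [a2, map_div₀, hN]
      simp only [map_add, map_sub, map_mul, conj_conj]
    rw [X_mulVec]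
    funext k
    fin_cases k
    · change Y y s 0 * s 1 + Y y s 1 * s 2 + Y y s 2 * s 3 = y 0
      rw [a0, a1, a2]
      field_simp
      rw [nn_expand]
      linear_combination (-conj (s 0)) * hy1
    · change -Y y s 0 * s 0 + conj (Y y s 2) * s 2 - conj (Y y s 1) * s 3 = y 1
      rw [a0, b1, b2]
      field_simp
      rw [nn_expand]
      linear_combination (-conj (s 1)) * hy1
    · change -Y y s 1 * s 0 - conj (Y y s 2) * s 1 + conj (Y y s 0) * s 3 = y 2
      rw [a1, b0, b2]
      field_simp
      rw [nn_expand]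
      linear_combination (-conj (s 2)) * hy1
    · change -Y y s 2 * s 0 + conj (Y y s 1) * s 1 - conj (Y y s 0) * s 2 = y 3
      rw [a2, b0, b1]
      field_simp
      rw [nn_expand]
      linear_combination (-conj (s 3)) * hy1

end Pool.Agent.H722.T6
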